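import Pool.Agent.Helper27.FM.Goursat

/-!
# Project DCH (MP_6cbef8_nt), module Simple: stable subspaces over a smaller field

`K ⊂ E` fields, `V : G →* GL_2(E)` with `sl_2(E)` a simple module for conjugation (`AdSimple V`, defined in
Helper27/FM/Goursat.lean). Submodules over `K` of `M_2(E)`: the `E`-span of a stable traceless nonzero one contains all
traceless matrices, and four consequences.
-/

set_option autoImplicit false

namespace Pool.Agent.Helper37.Dc

open Pool.Agent.Helper27.FM Matrix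

variable {K E : Type*} [Field K] [CharZero K] [Field E] [Algebra K E]
  {G : Type*} [Group G] {V : G →* GL (Fin 2) E}

omit [CharZero K] in
private lemma span_trace {N : Submodule K (M2 E)} (htl : ∀ a ∈ N, a.trace = 0) {x : M2 E}
    (hx : x ∈ Submodule.span E (N : Set (M2 E))) : x.trace = 0 := by
  induction hx using Submodule.span_induction with
  | mem y hy => exact htl y hy
  | zero => simp
  | add y z _ _ h1 h2 => rw [Matrix.trace_add, h1, h2, add_zero]
  | smul c y _ h => rw [Matrix.trace_smul, h, smul_zero]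

omit [CharZero K] in
private lemma span_cj {N : Submodule K (M2 E)} (hG : ∀ g, ∀ a ∈ N, cj (V g) a ∈ N) (g : G)
    {x : M2 E} (hx : x ∈ Submodule.span E (N : Set (M2 E))) :
    cj (V g) x ∈ Submodule.span E (N : Set (M2 E)) := by
  induction hx using Submodule.span_induction with
  | mem y hy => exact Submodule.subset_span (hG g y hy)
  | zero =>
    have h : cj (V g) (0 : M2 E) = 0 := by simp [cj]
    rw [h]
    exact Submodule.zero_mem _
  | add y z _ _ h1 h2 =>
    rw [cj_add]
    exact Submodule.add_mem _ h1 h2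
  | smul c y _ h =>
    rw [cj_smul]
    exact Submodule.smul_mem _ c h

private lemma tr_e : (!![0, 1; 0, 0] : M2 E).trace = 0 := by simp [Matrix.trace_fin_two]

private lemma tr_f : (!![0, 0; 1, 0] : M2 E).trace = 0 := by simp [Matrix.trace_fin_two]

private lemma ef_ne : (!![0, 1; 0, 0] : M2 E) * !![0, 0; 1, 0] ≠ !![0, 0; 1, 0] * !![0, 1; 0, 0] := by
  intro h
  have h1 := congrFun (congrFun h 0) 0
  simp [Matrix.mul_apply, Fin.sum_univ_two] at h1

theorem mem_span_of_stable (hV : AdSimple V) (N : Submodule K (M2 E))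
    (htl : ∀ a ∈ N, a.trace = 0) (hG : ∀ g, ∀ a ∈ N, cj (V g) a ∈ N) (hne : ∃ a ∈ N, a ≠ 0)
    (x : M2 E) (hx : x.trace = 0) : x ∈ Submodule.span E (N : Set (M2 E)) := by
  obtain ⟨a, ha, ha0⟩ := hne
  exact hV _ (fun y hy => span_trace htl hy) (fun g y hy => span_cj hG g hy)
    ⟨a, Submodule.subset_span ha, ha0⟩ x hx

private lemma four {S : Set (M2 E)}
    (h : ∀ a ∈ S, ∀ b ∈ S, ∀ c ∈ S, ∀ d ∈ S, ((a * b - b * a) * (c * d - d * c)).trace = 0) :
    ∀ a ∈ Submodule.span E S, ∀ b ∈ Submodule.span E S, ∀ c ∈ Submodule.span E S,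
      ∀ d ∈ Submodule.span E S, ((a * b - b * a) * (c * d - d * c)).trace = 0 := by
  have h1 : ∀ a ∈ Submodule.span E S, ∀ b ∈ S, ∀ c ∈ S, ∀ d ∈ S,
      ((a * b - b * a) * (c * d - d * c)).trace = 0 := by
    intro a ha b hb c hc d hd
    induction ha using Submodule.span_induction with
    | mem y hy => exact h y hy b hb c hc d hd
    | zero => simp
    | add y z _ _ h1 h2 =>
      have e : ((y + z) * b - b * (y + z)) * (c * d - d * c) =
          (y * b - b * y) * (c * d - d * c) + (z * b - b * z) * (c * d - d * c) := by noncomm_ring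
      rw [e, Matrix.trace_add, h1, h2, add_zero]
    | smul r y _ h1 =>
      have e : ((r • y) * b - b * (r • y)) * (c * d - d * c) =
          r • ((y * b - b * y) * (c * d - d * c)) := by
        rw [smul_mul_assoc, mul_smul_comm, ← smul_sub, smul_mul_assoc]
      rw [e, Matrix.trace_smul, h1, smul_zero]
  have h2 : ∀ a ∈ Submodule.span E S, ∀ b ∈ Submodule.span E S, ∀ c ∈ S, ∀ d ∈ S,
      ((a * b - b * a) * (c * d - d * c)).trace = 0 := by
    intro a ha b hb c hc d hd
    induction hb using Submodule.span_induction with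
    | mem y hy => exact h1 a ha y hy c hc d hd
    | zero => simp
    | add y z _ _ h1 h2 =>
      have e : (a * (y + z) - (y + z) * a) * (c * d - d * c) =
          (a * y - y * a) * (c * d - d * c) + (a * z - z * a) * (c * d - d * c) := by noncomm_ring
      rw [e, Matrix.trace_add, h1, h2, add_zero]
    | smul r y _ h1 =>
      have e : (a * (r • y) - (r • y) * a) * (c * d - d * c) =
          r • ((a * y - y * a) * (c * d - d * c)) := by
        rw [smul_mul_assoc, mul_smul_comm, ← smul_sub, smul_mul_assoc]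
      rw [e, Matrix.trace_smul, h1, smul_zero]
  have h3 : ∀ a ∈ Submodule.span E S, ∀ b ∈ Submodule.span E S, ∀ c ∈ Submodule.span E S,
      ∀ d ∈ S, ((a * b - b * a) * (c * d - d * c)).trace = 0 := by
    intro a ha b hb c hc d hd
    induction hc using Submodule.span_induction with
    | mem y hy => exact h2 a ha b hb y hy d hd
    | zero => simp
    | add y z _ _ h1 h2 =>
      have e : (a * b - b * a) * ((y + z) * d - d * (y + z)) =
          (a * b - b * a) * (y * d - d * y) + (a * b - b * a) * (z * d - d * z) := by noncomm_ring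
      rw [e, Matrix.trace_add, h1, h2, add_zero]
    | smul r y _ h1 =>
      have e : (a * b - b * a) * ((r • y) * d - d * (r • y)) =
          r • ((a * b - b * a) * (y * d - d * y)) := by
        rw [smul_mul_assoc, mul_smul_comm, ← smul_sub, mul_smul_comm]
      rw [e, Matrix.trace_smul, h1, smul_zero]
  intro a ha b hb c hc d hd
  induction hd using Submodule.span_induction with
  | mem y hy => exact h3 a ha b hb c hc y hy
  | zero => simp
  | add y z _ _ h1 h2 =>
    have e : (a * b - b * a) * (c * (y + z) - (y + z) * c) =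
        (a * b - b * a) * (c * y - y * c) + (a * b - b * a) * (c * z - z * c) := by noncomm_ring
    rw [e, Matrix.trace_add, h1, h2, add_zero]
  | smul r y _ h1 =>
    have e : (a * b - b * a) * (c * (r • y) - (r • y) * c) =
        r • ((a * b - b * a) * (c * y - y * c)) := by
      rw [smul_mul_assoc, mul_smul_comm, ← smul_sub, mul_smul_comm]
    rw [e, Matrix.trace_smul, h1, smul_zero]

theorem eq_zero_of_trace (hV : AdSimple V) (N : Submodule K (M2 E))
    (htl : ∀ a ∈ N, a.trace = 0) (hG : ∀ g, ∀ a ∈ N, cj (V g) a ∈ N)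
    (h : ∀ a ∈ N, ∀ b ∈ N, ∀ c ∈ N, ∀ d ∈ N, ((a * b - b * a) * (c * d - d * c)).trace = 0) :
    ∀ a ∈ N, a = 0 := by
  have hE : CharZero E := charZero_of_injective_algebraMap (algebraMap K E).injective
  intro a ha
  by_contra ha0
  have hs := mem_span_of_stable hV N htl hG ⟨a, ha, ha0⟩
  have h1 := four (S := (N : Set (M2 E))) h _ (hs _ tr_e) _ (hs _ tr_f) _ (hs _ tr_e) _ (hs _ tr_f)
  have h2 : (((!![0, 1; 0, 0] : M2 E) * !![0, 0; 1, 0] - !![0, 0; 1, 0] * !![0, 1; 0, 0]) *
      (!![0, 1; 0, 0] * !![0, 0; 1, 0] - !![0, 0; 1, 0] * !![0, 1; 0, 0])).trace = 2 := by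
    simp [Matrix.trace_fin_two]
    norm_num
  rw [h2] at h1
  exact two_ne_zero h1

private lemma span_commute {S : Set (M2 E)} {X : M2 E} (hc : ∀ b ∈ S, X * b - b * X = 0)
    {b : M2 E} (hb : b ∈ Submodule.span E S) : X * b = b * X := by
  induction hb using Submodule.span_induction with
  | mem y hy => exact sub_eq_zero.1 (hc y hy)
  | zero => simp
  | add y z _ _ h1 h2 => rw [mul_add, add_mul, h1, h2]
  | smul r y _ h1 => rw [smul_mul_assoc, mul_smul_comm, h1]

theorem eq_zero_of_commute (hV : AdSimple V) (N : Submodule K (M2 E))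
    (htl : ∀ a ∈ N, a.trace = 0) (hG : ∀ g, ∀ a ∈ N, cj (V g) a ∈ N) (hne : ∃ a ∈ N, a ≠ 0)
    {X : M2 E} (hX : X.trace = 0) (hc : ∀ b ∈ N, X * b - b * X = 0) : X = 0 := by
  have hE : CharZero E := charZero_of_injective_algebraMap (algebraMap K E).injective
  have hs := mem_span_of_stable hV N htl hG hne
  have h1 := span_commute (S := (N : Set (M2 E))) hc (hs _ tr_e)
  have h2 := span_commute (S := (N : Set (M2 E))) hc (hs _ tr_f)
  have a1 := congrFun (congrFun h1 0) 0
  have a2 := congrFun (congrFun h1 0) 1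
  have a3 := congrFun (congrFun h2 0) 0
  simp [Matrix.mul_apply, Fin.sum_univ_two] at a1 a2 a3
  rw [Matrix.trace_fin_two] at hX
  have a4 : X 1 1 = 0 := by
    rw [a2] at hX
    have h3 : 2 * X 1 1 = 0 := by rw [two_mul]; exact hX
    exact (mul_eq_zero.1 h3).resolve_left two_ne_zero
  ext i j
  fin_cases i <;> fin_cases j
  · simpa using a2.trans a4
  · simpa using a3
  · simpa using a1.symm
  · simpa using a4

private lemma span_commute₂ {S : Set (M2 E)} (hc : ∀ a ∈ S, ∀ b ∈ S, a * b - b * a = 0)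
    {a b : M2 E} (ha : a ∈ Submodule.span E S) (hb : b ∈ Submodule.span E S) : a * b = b * a :=
  span_commute (fun b hb => by
    rw [span_commute (fun a ha => hc b hb a ha) ha, sub_self]) hb

theorem nonzero_traceless (hV : AdSimple V) (N : Submodule K (M2 E))
    (hbr : ∀ a ∈ N, ∀ b ∈ N, a * b - b * a ∈ N) (hG : ∀ g, ∀ a ∈ N, cj (V g) a ∈ N)
    (hns : ∃ a ∈ N, ∀ c : E, a ≠ c • (1 : M2 E)) : ∃ a ∈ N, a.trace = 0 ∧ a ≠ 0 := by
  have hE : CharZero E := charZero_of_injective_algebraMap (algebraMap K E).injective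
  by_contra hcon
  have hz : ∀ a ∈ N, a.trace = 0 → a = 0 := by
    intro a ha ht
    by_contra h0
    exact hcon ⟨a, ha, ht, h0⟩
  have hcomm : ∀ a ∈ (N : Set (M2 E)), ∀ b ∈ (N : Set (M2 E)), a * b - b * a = 0 := by
    intro a ha b hb
    refine hz _ (hbr a ha b hb) ?_
    rw [Matrix.trace_sub, Matrix.trace_mul_comm, sub_self]
  have hsm : ∀ (c : E) (z : M2 E), z ∈ Submodule.span E (N : Set (M2 E)) →
      c • z ∈ Submodule.span E (N : Set (M2 E)) := fun c z hz => Submodule.smul_mem _ c hz
  let W : Submodule E (M2 E) :=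
    { carrier := {x | x.trace = 0 ∧ ∃ c : E, x + c • (1 : M2 E) ∈
        Submodule.span E (N : Set (M2 E))}
      zero_mem' := ⟨by simp, 0, by simp⟩
      add_mem' := by
        rintro x y ⟨hx, c, hc⟩ ⟨hy, d, hd⟩
        refine ⟨by rw [Matrix.trace_add, hx, hy, add_zero], c + d, ?_⟩
        have h1 := Submodule.add_mem _ hc hd
        have e : x + y + (c + d) • (1 : M2 E) = x + c • (1 : M2 E) + (y + d • (1 : M2 E)) := by
          rw [add_smul]
          abel
        rwa [e]
      smul_mem' := by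
        rintro r x ⟨hx, c, hc⟩
        refine ⟨by rw [Matrix.trace_smul, hx, smul_zero], r * c, ?_⟩
        have h1 := hsm r _ hc
        rwa [smul_add, smul_smul] at h1 }
  have hW : ∀ x : M2 E, x ∈ W ↔ x.trace = 0 ∧ ∃ c : E, x + c • (1 : M2 E) ∈
      Submodule.span E (N : Set (M2 E)) := fun x => Iff.rfl
  have hall := hV W (fun x hx => ((hW x).1 hx).1) (by
    intro g x hx
    obtain ⟨h1, c, hc⟩ := (hW x).1 hx
    refine (hW _).2 ⟨by rw [trace_cj, h1], c, ?_⟩
    have h2 := span_cj hG g hc
    rwa [cj_add, cj_smul, cj_one] at h2) (by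
    obtain ⟨a, ha, hac⟩ := hns
    refine ⟨a - (a.trace / 2) • (1 : M2 E), (hW _).2 ⟨?_, a.trace / 2, ?_⟩, ?_⟩
    · rw [Matrix.trace_sub, Matrix.trace_smul, Matrix.trace_one, Fintype.card_fin, smul_eq_mul]
      push_cast
      rw [div_mul_cancel₀ _ two_ne_zero, sub_self]
    · rw [sub_add_cancel]
      exact Submodule.subset_span ha
    · intro h0
      exact hac _ (sub_eq_zero.1 h0))
  obtain ⟨-, c, hc⟩ := (hW _).1 (hall _ tr_e)
  obtain ⟨-, d, hd⟩ := (hW _).1 (hall _ tr_f)
  have h1 := span_commute₂ hcomm hc hd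
  apply ef_ne (E := E)
  have h2 : (!![0, 1; 0, 0] + c • (1 : M2 E)) * (!![0, 0; 1, 0] + d • (1 : M2 E)) =
      !![0, 1; 0, 0] * !![0, 0; 1, 0] + (d • !![0, 1; 0, 0] + c • !![0, 0; 1, 0] +
        (c * d) • (1 : M2 E)) := by
    rw [add_mul, mul_add, mul_add, mul_smul_comm, mul_one, smul_mul_assoc, one_mul,
      smul_mul_assoc, one_mul, smul_smul]
    abel
  have h3 : (!![0, 0; 1, 0] + d • (1 : M2 E)) * (!![0, 1; 0, 0] + c • (1 : M2 E)) =
      !![0, 0; 1, 0] * !![0, 1; 0, 0] + (d • !![0, 1; 0, 0] + c • !![0, 0; 1, 0] +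
        (c * d) • (1 : M2 E)) := by
    rw [add_mul, mul_add, mul_add, mul_smul_comm, mul_one, smul_mul_assoc, one_mul,
      smul_mul_assoc, one_mul, smul_smul, mul_comm d c]
    abel
  rw [h2, h3] at h1
  exact add_right_cancel h1

end Pool.Agent.Helper37.Dc
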