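import Pool.Agent.Helper37.Dc.Nil
import Pool.Agent.Helper37.Dc.Simple

/-!
# Project DCH (MP_6cbef8_nt), module Core: derivations of a `K`-form are inner

`K ⊂ E` finite, `I` a `K`-subspace of `M_2(E)` stable under brackets and conjugation by `V`, not consisting of scalars. Every traceless `X` which normalises `I` (for brackets) is in `I`.

PLAN. `I₀ = {a ∈ I | a.trace = 0}` (a `K`-submodule; `Matrix.traceLinearMap`), `B a b = LinearMap.trace K (M2 E) (LinearMap.mulLeft K (a * b))`: symmetric (`LinearMap.mulLeft_mul`, `LinearMap.trace_mul_comm`), and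
`B (X b - b X) c = B X (b c - c b)`. `I₀` contains a nonzero element (`nonzero_traceless`). (1) The radical `N = {a ∈ I₀ | ∀ b ∈ I₀, B a b = 0}` is a `K`-submodule, traceless, closed under brackets
(`B (a b - b a) c = B a (b c - c b)` and `b c - c b ∈ I₀`), and stable under `cj (V g)` (`B (cj g a) b = B a (cj g⁻¹ b)`: `cj g a * b = g * (a * cj g⁻¹ b) * g⁻¹` and the trace is invariant under conjugation; `cj_mul`,
`V g⁻¹ = (V g)⁻¹`). `B` is zero on `N × N`, so `trace_bracket_zero` and `eq_zero_of_trace` give `N = 0`. (2) So the linear map `I₀ → Module.Dual K I₀`, `a ↦ B a ·` is injective, hence surjective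
(`LinearMap.injective_iff_surjective_of_finrank_eq_finrank`, `Subspace.dual_finrank_eq`; or `LinearMap.BilinForm.toDual` and nondegeneracy). (3) Take `W ∈ I₀` with `B W b = B X b` for all `b ∈ I₀`;
`Y = X - W` is traceless, `B Y b = 0` for `b ∈ I₀`. For `b ∈ I₀`: `Y b - b Y = (X b - b X) - (W b - b W) ∈ I`, is traceless, and `B (Y b - b Y) c = B Y (b c - c b) = 0` for `c ∈ I₀`, so it is in `N`, so zero. By
`eq_zero_of_commute`, `Y = 0`, so `X = W ∈ I`.
-/

set_option autoImplicit false

namespace Pool.Agent.Helper37.Dc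

open Pool.Agent.Helper27.FM Matrix

section core

variable {K E : Type*} [Field K] [CharZero K] [Field E] [Algebra K E]

private noncomputable def core_T (K : Type*) {E : Type*} [Field K] [Field E] [Algebra K E] :
    M2 E →ₗ[K] K :=
  (LinearMap.trace K (M2 E)).comp (LinearMap.mul K (M2 E))

omit [CharZero K] in
private lemma core_T_apply (x : M2 E) :
    core_T K x = LinearMap.trace K (M2 E) (LinearMap.mulLeft K x) := rfl

omit [CharZero K] in
private lemma core_T_comm (x y : M2 E) : core_T K (x * y) = core_T K (y * x) := by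
  rw [core_T_apply, core_T_apply, LinearMap.mulLeft_mul, LinearMap.mulLeft_mul]
  exact LinearMap.trace_mul_comm K (LinearMap.mulLeft K x) (LinearMap.mulLeft K y)

omit [CharZero K] in
private lemma core_T_cj (g : GL (Fin 2) E) (x : M2 E) : core_T K (cj g x) = core_T K x := by
  unfold cj
  rw [core_T_comm, ← mul_assoc, inv_mul_val, one_mul]

omit [CharZero K] in
private lemma core_T_bracket (a b c : M2 E) :
    core_T K ((a * b - b * a) * c) = core_T K (a * (b * c - c * b)) := by
  rw [sub_mul, mul_sub, map_sub, map_sub]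
  congr 1
  · rw [mul_assoc]
  · rw [mul_assoc, core_T_comm, mul_assoc]

end core

theorem traceless_mem {K E : Type*} [Field K] [CharZero K] [Field E] [Algebra K E]
    [FiniteDimensional K E] {G : Type*} [Group G] {V : G →* GL (Fin 2) E} (hV : AdSimple V)
    (I : Submodule K (M2 E)) (hG : ∀ g, ∀ b ∈ I, cj (V g) b ∈ I)
    (hI : ∀ a ∈ I, ∀ b ∈ I, a * b - b * a ∈ I) (hns : ∃ b ∈ I, ∀ c : E, b ≠ c • (1 : M2 E))
    {X : M2 E} (hX : X.trace = 0) (hXI : ∀ b ∈ I, X * b - b * X ∈ I) : X ∈ I := by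
  classical
  -- the traceless part
  let I0 : Submodule K (M2 E) :=
    { carrier := {a | a ∈ I ∧ a.trace = 0}
      add_mem' := by
        rintro a b ⟨ha, ha'⟩ ⟨hb, hb'⟩
        exact ⟨I.add_mem ha hb, by rw [Matrix.trace_add, ha', hb', add_zero]⟩
      zero_mem' := ⟨I.zero_mem, Matrix.trace_zero _ _⟩
      smul_mem' := by
        rintro c a ⟨ha, ha'⟩
        exact ⟨I.smul_mem c ha, by rw [Matrix.trace_smul, ha', smul_zero]⟩ }
  have hI0 : ∀ a, a ∈ I0 ↔ a ∈ I ∧ a.trace = 0 := fun a => Iff.rfl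
  have hI0G : ∀ g, ∀ a ∈ I0, cj (V g) a ∈ I0 := fun g a ha =>
    ⟨hG g a ha.1, by rw [trace_cj]; exact ha.2⟩
  have hI0br : ∀ a ∈ I0, ∀ b ∈ I0, a * b - b * a ∈ I0 := fun a ha b hb =>
    ⟨hI a ha.1 b hb.1, trace_bracket a b⟩
  -- radical
  let N : Submodule K (M2 E) :=
    { carrier := {a | a ∈ I0 ∧ ∀ b ∈ I0, core_T K (a * b) = 0}
      add_mem' := by
        rintro a b ⟨ha, ha'⟩ ⟨hb, hb'⟩
        refine ⟨I0.add_mem ha hb, fun c hc => ?_⟩
        rw [add_mul, map_add, ha' c hc, hb' c hc, add_zero]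
      zero_mem' := ⟨I0.zero_mem, fun c _ => by rw [zero_mul, map_zero]⟩
      smul_mem' := by
        rintro c a ⟨ha, ha'⟩
        refine ⟨I0.smul_mem c ha, fun b hb => ?_⟩
        rw [smul_mul_assoc, map_smul, ha' b hb, smul_zero] }
  have hN : ∀ a, a ∈ N ↔ a ∈ I0 ∧ ∀ b ∈ I0, core_T K (a * b) = 0 := fun a => Iff.rfl
  have hNG : ∀ g, ∀ a ∈ N, cj (V g) a ∈ N := by
    intro g a ha
    refine ⟨hI0G g a ha.1, fun b hb => ?_⟩
    have h1 : b = cj (V g) (cj (V g⁻¹) b) := by
      unfold cj
      rw [map_inv, inv_inv]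
      have := mul_inv_val (V g)
      calc b = 1 * b * 1 := by rw [one_mul, mul_one]
        _ = ((V g : M2 E) * (((V g)⁻¹ : GL (Fin 2) E) : M2 E)) * b *
            ((V g : M2 E) * (((V g)⁻¹ : GL (Fin 2) E) : M2 E)) := by rw [this]
        _ = _ := by noncomm_ring
    rw [h1, ← cj_mul, core_T_cj]
    exact ha.2 _ (hI0G g⁻¹ b hb)
  have hNbr : ∀ a ∈ N, ∀ b ∈ N, a * b - b * a ∈ N := by
    intro a ha b hb
    refine ⟨hI0br a ha.1 b hb.1, fun c hc => ?_⟩
    rw [core_T_bracket]
    exact ha.2 _ (hI0br b hb.1 c hc)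
  have hN0 : ∀ a ∈ N, a = 0 :=
    eq_zero_of_trace hV N (fun a ha => ha.1.2) hNG
      (trace_bracket_zero N hNbr (fun a ha b hb => ha.2 b hb.1))
  -- duality
  let φ : I0 →ₗ[K] Module.Dual K I0 :=
    LinearMap.mk₂ K (fun a b : I0 => core_T K ((a : M2 E) * (b : M2 E)))
      (fun a a' b => by simp only [Submodule.coe_add, add_mul, map_add])
      (fun c a b => by simp only [Submodule.coe_smul, smul_mul_assoc, map_smul])
      (fun a b b' => by simp only [Submodule.coe_add, mul_add, map_add])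
      (fun c a b => by simp only [Submodule.coe_smul, mul_smul_comm, map_smul])
  have hφ : ∀ a b : I0, φ a b = core_T K ((a : M2 E) * (b : M2 E)) := fun a b => rfl
  have hinj : Function.Injective φ := by
    rw [injective_iff_map_eq_zero]
    intro a ha
    have : (a : M2 E) ∈ N := by
      refine ⟨a.2, fun b hb => ?_⟩
      have := LinearMap.congr_fun ha ⟨b, hb⟩
      rw [hφ] at this
      simpa using this
    exact Subtype.ext (hN0 _ this)
  have hsurj : Function.Surjective φ :=
    (LinearMap.injective_iff_surjective_of_finrank_eq_finrank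
      (Subspace.dual_finrank_eq).symm).1 hinj
  -- the element
  let ψ : Module.Dual K I0 :=
    { toFun := fun b => core_T K (X * (b : M2 E))
      map_add' := fun a b => by simp only [Submodule.coe_add, mul_add, map_add]
      map_smul' := fun c b => by
        simp only [Submodule.coe_smul, mul_smul_comm, map_smul, RingHom.id_apply] }
  have hψ : ∀ b : I0, ψ b = core_T K (X * (b : M2 E)) := fun b => rfl
  obtain ⟨W, hW⟩ := hsurj ψ
  have hYb : ∀ b ∈ I0, core_T K ((X - (W : M2 E)) * b) = 0 := by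
    intro b hb
    have h1 := LinearMap.congr_fun hW ⟨b, hb⟩
    rw [hφ, hψ] at h1
    rw [sub_mul, map_sub, sub_eq_zero]
    exact h1.symm
  have hYc : ∀ b ∈ I0, (X - (W : M2 E)) * b - b * (X - (W : M2 E)) = 0 := by
    intro b hb
    apply hN0
    refine ⟨⟨?_, trace_bracket _ _⟩, fun c hc => ?_⟩
    · have h1 := hXI b hb.1
      have h2 := hI (W : M2 E) W.2.1 b hb.1
      have h3 : (X - (W : M2 E)) * b - b * (X - (W : M2 E)) =
          (X * b - b * X) - ((W : M2 E) * b - b * (W : M2 E)) := by noncomm_ring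
      rw [h3]
      exact I.sub_mem h1 h2
    · rw [core_T_bracket]
      exact hYb _ (hI0br b hb c hc)
  have hYt : (X - (W : M2 E)).trace = 0 := by
    rw [Matrix.trace_sub, hX, W.2.2, sub_zero]
  have hne : ∃ a ∈ I0, a ≠ 0 := by
    obtain ⟨a, ha, ha1, ha2⟩ := nonzero_traceless hV I hI hG hns
    exact ⟨a, ⟨ha, ha1⟩, ha2⟩
  have hY0 := eq_zero_of_commute hV I0 (fun a ha => ha.2) hI0G hne hYt hYc
  rw [sub_eq_zero] at hY0
  rw [hY0]
  exact W.2.1

end Pool.Agent.Helper37.Dc
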