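import Pool.Agent.Helper37.Kr.Fill

/-!
# Project DCH (MP_6cbef8_nt), module Exact: all small elements of the Lie algebra are logarithms

Proof: coordinates with respect to a basis of the span are continuous, so small elements of the span are in the closed
lattice `Lam`, and `p ^ m • Lam` consists of logarithms (`fill_lam`).
-/

set_option autoImplicit false
open Filter Topology

namespace Pool.Agent.Helper37.Dc

open Pool.Agent.Helper27.FM Pool.Agent.Helper37.Kr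

variable (p : ℕ) [hp : Fact p.Prime] {A : Type*} [NormedRing A] [IsUltrametricDist A]
  [NormedAlgebra ℚ_[p] A] [FiniteDimensional ℚ_[p] A]
  {G : Type*} [Group G] {R : G →* A} {U : Subgroup G}

private theorem spanlog_nat (h1 : ‖(1 : A)‖ ≤ 1) (hs : ∀ x ∈ U, ‖R x - 1‖ ≤ (p : ℝ)⁻¹ ^ 2)
    {v : A} (hv : v ∈ Lam p R U) (n : ℕ) : ((n : ℚ_[p])) • v ∈ Lam p R U := by
  induction n with
  | zero =>
    have h := lam_add p h1 hs hv (lam_neg p h1 hs hv)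
    rw [add_neg_cancel] at h
    simpa using h
  | succ n ih =>
    have h := lam_add p h1 hs ih hv
    push_cast
    rw [add_smul, one_smul]
    exact h

private theorem spanlog_int (h1 : ‖(1 : A)‖ ≤ 1) (hs : ∀ x ∈ U, ‖R x - 1‖ ≤ (p : ℝ)⁻¹ ^ 2)
    {v : A} (hv : v ∈ Lam p R U) {c : ℚ_[p]} (hc : ‖c‖ ≤ 1) : c • v ∈ Lam p R U := by
  have hcl : IsClosed {u : ℤ_[p] | (u : ℚ_[p]) • v ∈ Lam p R U} := by
    have h2 : Continuous (fun u : ℤ_[p] => (u : ℚ_[p]) • v) :=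
      continuous_subtype_val.smul continuous_const
    have h3 : IsClosed (Lam p R U) := isClosed_closure
    exact h3.preimage h2
  have hall : ∀ u : ℤ_[p], u ∈ {u : ℤ_[p] | (u : ℚ_[p]) • v ∈ Lam p R U} := by
    intro u
    apply PadicInt.denseRange_natCast.induction_on (p := fun u : ℤ_[p] =>
      u ∈ {u : ℤ_[p] | (u : ℚ_[p]) • v ∈ Lam p R U}) u hcl
    intro n
    simp only [Set.mem_ofPred_eq, PadicInt.coe_natCast]
    exact spanlog_nat p h1 hs hv n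
  exact hall ⟨c, hc⟩

private theorem spanlog_pow (h1 : ‖(1 : A)‖ ≤ 1) (hs : ∀ x ∈ U, ‖R x - 1‖ ≤ (p : ℝ)⁻¹ ^ 2)
    {v : A} (hv : v ∈ Lam p R U) (k : ℕ) : ((p : ℚ_[p]) ^ k) • v ∈ Lam p R U := by
  apply spanlog_int p h1 hs hv
  rw [norm_pow, Padic.norm_p]
  have hp1 : (1 : ℝ) ≤ p := by exact_mod_cast hp.out.one_lt.le
  exact pow_le_one₀ (by positivity) (inv_le_one_of_one_le₀ hp1)

private theorem spanlog_exists_pow (c : ℚ_[p]) : ∃ r : ℕ, ‖(p : ℚ_[p]) ^ r * c‖ ≤ 1 := by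
  have hp1 : (1 : ℝ) < p := by exact_mod_cast hp.out.one_lt
  obtain ⟨r, hr⟩ := pow_unbounded_of_one_lt ‖c‖ hp1
  refine ⟨r, ?_⟩
  rw [norm_mul, norm_pow, Padic.norm_p, inv_pow, inv_mul_le_iff₀ (by positivity), mul_one]
  exact hr.le

private theorem spanlog_span (h1 : ‖(1 : A)‖ ≤ 1) (hs : ∀ x ∈ U, ‖R x - 1‖ ≤ (p : ℝ)⁻¹ ^ 2)
    {z : A} (hz : z ∈ ASp ℚ_[p] p R U) : ∃ N : ℕ, ((p : ℚ_[p]) ^ N) • z ∈ Lam p R U := by
  unfold ASp at hz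
  induction hz using Submodule.span_induction with
  | mem z hz =>
    obtain ⟨x, hx, hxz⟩ := hz
    refine ⟨0, subset_closure ⟨0, x, ⟨hx, ?_⟩, ?_⟩⟩
    · simpa using hs x hx
    · simpa using hxz
  | zero =>
    refine ⟨0, subset_closure ⟨0, 1, ⟨U.one_mem, ?_⟩, ?_⟩⟩
    · rw [map_one, sub_self, norm_zero]
      positivity
    · unfold ALog
      simp
  | add z w _ _ ih1 ih2 =>
    obtain ⟨N, hN⟩ := ih1
    obtain ⟨M, hM⟩ := ih2
    refine ⟨N + M, ?_⟩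
    have h := lam_add p h1 hs (spanlog_pow p h1 hs hN M) (spanlog_pow p h1 hs hM N)
    rw [smul_smul, smul_smul, ← pow_add, ← pow_add, add_comm M N, ← smul_add] at h
    exact h
  | smul c z _ ih =>
    obtain ⟨N, hN⟩ := ih
    obtain ⟨r, hr⟩ := spanlog_exists_pow p c
    refine ⟨N + r, ?_⟩
    have h := spanlog_int p h1 hs hN hr
    rw [smul_smul] at h
    rw [smul_smul]
    have e : (p : ℚ_[p]) ^ (N + r) * c = (p : ℚ_[p]) ^ r * c * (p : ℚ_[p]) ^ N := by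
      rw [pow_add]
      ring
    rw [e]
    exact h

private theorem exact_zero : (0 : A) ∈ Lam p R U := by
  refine subset_closure ⟨0, 1, ⟨U.one_mem, ?_⟩, ?_⟩
  · rw [map_one, sub_self, norm_zero]
    positivity
  · unfold ALog
    simp

/-- small elements of the span are in the closed lattice -/
private theorem exact_lat (h1 : ‖(1 : A)‖ ≤ 1) (hs : ∀ x ∈ U, ‖R x - 1‖ ≤ (p : ℝ)⁻¹ ^ 2) :
    ∃ C : ℝ, 0 < C ∧ ∃ N : ℕ, ∀ z ∈ ASp ℚ_[p] p R U, C * ‖z‖ ≤ (p : ℝ)⁻¹ ^ N →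
      z ∈ Lam p R U := by
  set S := ASp ℚ_[p] p R U with hS
  let b := Module.finBasis ℚ_[p] S
  have hN : ∀ i, ∃ N : ℕ, ((p : ℚ_[p]) ^ N) • ((b i : S) : A) ∈ Lam p R U := fun i =>
    spanlog_span p h1 hs (b i).2
  choose Nf hNf using hN
  set N := Finset.univ.sup Nf with hNd
  have hNb : ∀ i, ((p : ℚ_[p]) ^ N) • ((b i : S) : A) ∈ Lam p R U := by
    intro i
    have h2 : Nf i ≤ N := Finset.le_sup (Finset.mem_univ i)
    have h3 := spanlog_pow p h1 hs (hNf i) (N - Nf i)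
    rw [smul_smul, ← pow_add, Nat.sub_add_cancel h2] at h3
    exact h3
  let e : S →L[ℚ_[p]] (Fin (Module.finrank ℚ_[p] S) → ℚ_[p]) := (b.equivFunL : _ →L[ℚ_[p]] _)
  have hp0 : (0 : ℝ) < p := by exact_mod_cast hp.out.pos
  refine ⟨‖e‖ + 1, by positivity, N, fun z hz hzn => ?_⟩
  have h4 : ∀ i, ‖b.repr ⟨z, hz⟩ i‖ ≤ (p : ℝ)⁻¹ ^ N := by
    intro i
    have h5 : ‖e ⟨z, hz⟩ i‖ ≤ ‖e ⟨z, hz⟩‖ := norm_le_pi_norm _ i
    have h6 : ‖e ⟨z, hz⟩‖ ≤ ‖e‖ * ‖(⟨z, hz⟩ : S)‖ := e.le_opNorm _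
    have h7 : ‖(⟨z, hz⟩ : S)‖ = ‖z‖ := rfl
    have h8 : e ⟨z, hz⟩ i = b.repr ⟨z, hz⟩ i := rfl
    rw [h8] at h5
    rw [h7] at h6
    have h9 := norm_nonneg z
    linarith
  have h6 : z = ∑ i, b.repr ⟨z, hz⟩ i • ((b i : S) : A) := by
    have h7 := congrArg S.subtype (b.sum_repr ⟨z, hz⟩)
    rw [map_sum] at h7
    simp only [map_smul, Submodule.subtype_apply] at h7
    exact h7.symm
  have hpN : ((p : ℚ_[p]) ^ N) ≠ 0 := pow_ne_zero _ (Nat.cast_ne_zero.2 hp.out.ne_zero)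
  obtain ⟨c, hc⟩ : ∃ c : Fin (Module.finrank ℚ_[p] S) → ℚ_[p], c = fun i => b.repr ⟨z, hz⟩ i :=
    ⟨_, rfl⟩
  have hc4 : ∀ i, ‖c i‖ ≤ (p : ℝ)⁻¹ ^ N := by
    intro i
    rw [hc]
    exact h4 i
  have hc6 : z = ∑ i, c i • ((b i : S) : A) := by
    rw [hc]
    exact h6
  have h5 : z = ∑ i, (((p : ℚ_[p]) ^ N)⁻¹ * c i) • (((p : ℚ_[p]) ^ N) • ((b i : S) : A)) := by
    rw [hc6]
    refine Finset.sum_congr rfl fun i _ => ?_
    rw [smul_smul]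
    congr 1
    field_simp
  rw [h5]
  apply Finset.sum_induction _ (fun v => v ∈ Lam p R U)
  · intro v w hv hw
    exact lam_add p h1 hs hv hw
  · exact exact_zero p
  · intro i _
    apply spanlog_int p h1 hs (hNb i)
    rw [norm_mul, norm_inv, norm_pow, Padic.norm_p]
    have h6 := hc4 i
    have h7 : (0 : ℝ) < (p : ℝ)⁻¹ ^ N := by positivity
    rw [inv_mul_le_iff₀ h7, mul_one]
    exact h6

theorem exists_log_small [TopologicalSpace G] [IsTopologicalGroup G] [CompactSpace G]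
    (hR : Continuous R) (hU : IsOpen (U : Set G)) (h1 : ‖(1 : A)‖ ≤ 1)
    (hs : ∀ x ∈ U, ‖R x - 1‖ ≤ (p : ℝ)⁻¹ ^ 2) :
    ∃ δ : ℝ, 0 < δ ∧ ∀ z ∈ ASp ℚ_[p] p R U, ‖z‖ ≤ δ → ∃ x ∈ U, ALog ℚ_[p] p R x z := by
  obtain ⟨m, hm⟩ := fill_lam p hR hU h1 hs
  obtain ⟨C, hC, N, hCN⟩ := exact_lat p h1 hs
  have hp0 : (0 : ℝ) < p := by exact_mod_cast hp.out.pos
  have hpm : ((p : ℚ_[p]) ^ m) ≠ 0 := pow_ne_zero _ (Nat.cast_ne_zero.2 hp.out.ne_zero)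
  refine ⟨(p : ℝ)⁻¹ ^ m * (p : ℝ)⁻¹ ^ N / C, by positivity, fun z hz hzn => ?_⟩
  have hv : ((p : ℚ_[p]) ^ m)⁻¹ • z ∈ Lam p R U := by
    apply hCN _ (Submodule.smul_mem _ _ hz)
    rw [norm_smul, norm_inv, norm_pow, Padic.norm_p]
    rw [le_div_iff₀ hC] at hzn
    have h2 : (0 : ℝ) < (p : ℝ)⁻¹ ^ m := by positivity
    have h3 : C * (((p : ℝ)⁻¹ ^ m)⁻¹ * ‖z‖) = ((p : ℝ)⁻¹ ^ m)⁻¹ * (‖z‖ * C) := by ring
    rw [h3, inv_mul_le_iff₀ h2]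
    exact hzn
  obtain ⟨x, ⟨hx, _⟩, hx2⟩ := hm _ hv
  refine ⟨x, hx, ?_⟩
  rw [smul_smul, mul_inv_cancel₀ hpm, one_smul] at hx2
  exact hx2

end Pool.Agent.Helper37.Dc
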