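import Mathlib.Topology.Algebra.Group.Basic
import Mathlib.Topology.Algebra.OpenSubgroup
import Mathlib.Topology.Algebra.Group.OpenMapping

/-!
# Project DCH (MP_6cbef8_nt), module Image: an open subgroup has open image (Mathlib only)

PROOF. Let `U` be the set of `x` with `s⁻¹ * x ∈ H` for some `s` with `R s = 1`; it is open. `R '' Uᶜ` is compact, so closed,
and does not contain `1`; let `W` be its complement. If `R g ∈ W` then `g ∈ U`, and `h = s⁻¹ * g` has `R h = R g`.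
-/

set_option autoImplicit false
open Topology

namespace Pool.Agent.Helper37.Dc

theorem exists_nhds_image {G A : Type*} [Group G] [TopologicalSpace G] [IsTopologicalGroup G]
    [CompactSpace G] [Monoid A] [TopologicalSpace A] [T2Space A] (R : G →* A) (hR : Continuous R)
    {H : Subgroup G} (hH : IsOpen (H : Set G)) :
    ∃ W ∈ 𝓝 (1 : A), ∀ g, R g ∈ W → ∃ h ∈ H, R h = R g := by
  have hU : IsOpen {x : G | ∃ s : G, R s = 1 ∧ s⁻¹ * x ∈ H} := by
    have h1 : {x : G | ∃ s : G, R s = 1 ∧ s⁻¹ * x ∈ H} =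
        ⋃ s ∈ {s : G | R s = 1}, (fun x : G => s⁻¹ * x) ⁻¹' (H : Set G) := by
      ext x
      simp only [Set.mem_ofPred_eq, Set.mem_iUnion, Set.mem_preimage, SetLike.mem_coe, exists_prop]
    rw [h1]
    exact isOpen_biUnion fun s _ => hH.preimage (continuous_const_mul s⁻¹)
  have hC : IsClosed (R '' {x : G | ∃ s : G, R s = 1 ∧ s⁻¹ * x ∈ H}ᶜ) :=
    (hU.isClosed_compl.isCompact.image hR).isClosed
  refine ⟨(R '' {x : G | ∃ s : G, R s = 1 ∧ s⁻¹ * x ∈ H}ᶜ)ᶜ, hC.isOpen_compl.mem_nhds ?_, ?_⟩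
  · rintro ⟨x, hx, hx1⟩
    apply hx
    refine ⟨x, hx1, ?_⟩
    rw [inv_mul_cancel]
    exact H.one_mem
  · intro g hg
    have h2 : g ∈ {x : G | ∃ s : G, R s = 1 ∧ s⁻¹ * x ∈ H} := by
      by_contra h3
      exact hg ⟨g, h3, rfl⟩
    obtain ⟨s, hs, hsg⟩ := h2
    refine ⟨s⁻¹ * g, hsg, ?_⟩
    have h4 : R s⁻¹ = 1 := by
      have h5 : R s⁻¹ * R s = 1 := by rw [← map_mul, inv_mul_cancel, map_one]
      rwa [hs, mul_one] at h5
    rw [map_mul, h4, one_mul]

end Pool.Agent.Helper37.Dc
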