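import Pool.Agent.Helper37.Kr.LogEst
import Pool.Agent.Helper37.Af.Close

/-!
# Project DCH (MP_6cbef8_nt), module LogFacts: logarithms of matrices of size two

PLAN. `trace_log`: with `X_k = ((p : ℚ_[p])^k)⁻¹ • (a^(p^k) - 1)`: `a^(p^k) = 1 + p^k • X_k` has determinant `1`; for size two `det (1 + t • X) = 1 + t * trace X + t^2 * det X`
(`Matrix.det_fin_two`), so `trace X_k = - (p^k) * det X_k` (divide by `p^k ≠ 0` in `E`, characteristic zero; note `((p : ℚ_[p])^k)⁻¹ • a = ((p : E)^k)⁻¹ • a`, `smul_p_eq` in Helper27/FM/Log.lean). The left side tends to `trace X`,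
the right side to `0` (`det X_k → det X`, `p^k → 0` in `E`).
`log_small`: for the norm `matNormedRing` (sup norm of the entries, Helper27/FM/Log.lean; `mat_norm_le_iff`): `log_norm` (Kr/LogEst.lean) with `h = 1` gives `‖X‖ = ‖a - 1‖`; here use it for a monoid homomorphism, e.g. the inclusion of
units, or directly `norm_logSeq_sub` with `y = 0` and `tendsto_nhds_unique`/`le_of_tendsto`; conclude entrywise: `‖X i j‖ ≤ r` if all `‖(a - 1) i j‖ ≤ r`.
-/

set_option autoImplicit false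
open Filter Topology

namespace Pool.Agent.Helper37.Dc

open Pool.Agent.Helper27.FM Pool.Agent.Helper37.Kr

variable (p : ℕ) [hp : Fact p.Prime] {E : Type*} [NontriviallyNormedField E] [IsUltrametricDist E]
  [NormedAlgebra ℚ_[p] E]

private lemma norm_pE_lt : ‖(p : E)‖ < 1 := by
  have h1 : (p : E) = algebraMap ℚ_[p] E (p : ℚ_[p]) := by simp
  rw [h1, norm_algebraMap' E]
  rw [Padic.norm_p]
  exact inv_lt_one_of_one_lt₀ (by exact_mod_cast hp.out.one_lt)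

private lemma pE_ne : (p : E) ≠ 0 := by
  have h1 : (p : E) = algebraMap ℚ_[p] E (p : ℚ_[p]) := by simp
  rw [h1]
  intro h2
  have h3 : (p : ℚ_[p]) = 0 := (algebraMap ℚ_[p] E).injective (by rw [h2, map_zero])
  exact hp.out.ne_zero (by exact_mod_cast h3)

private lemma trace_seq {a : M2 E} (hdet : a.det = 1) (k : ℕ) :
    (((p : ℚ_[p]) ^ k)⁻¹ • (a ^ (p ^ k) - 1)).trace =
      -((p : E) ^ k * (((p : ℚ_[p]) ^ k)⁻¹ • (a ^ (p ^ k) - 1)).det) := by
  rw [← smul_p_eq p k]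
  set t : E := (p : E) ^ k with ht
  have ht0 : t ≠ 0 := pow_ne_zero _ (pE_ne p)
  have h1 : (a ^ (p ^ k)).det = 1 := by rw [Matrix.det_pow, hdet, one_pow]
  set b : M2 E := a ^ (p ^ k) with hb
  rw [det_def] at h1
  rw [tr_def, det_def]
  simp only [Matrix.smul_apply, Matrix.sub_apply, Matrix.one_apply_eq, smul_eq_mul,
    Matrix.one_apply_ne (show (0 : Fin 2) ≠ 1 by decide),
    Matrix.one_apply_ne (show (1 : Fin 2) ≠ 0 by decide), sub_zero]
  field_simp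
  linear_combination h1

theorem trace_log {a X : M2 E} (hdet : a.det = 1)
    (h : Tendsto (fun k : ℕ => ((p : ℚ_[p]) ^ k)⁻¹ • (a ^ (p ^ k) - 1)) atTop (𝓝 X)) :
    X.trace = 0 := by
  have ht : Tendsto (fun k : ℕ => (((p : ℚ_[p]) ^ k)⁻¹ • (a ^ (p ^ k) - 1)).trace) atTop
      (𝓝 X.trace) :=
    ((continuous_id.matrix_trace).tendsto X).comp h
  have hd : Tendsto (fun k : ℕ => (((p : ℚ_[p]) ^ k)⁻¹ • (a ^ (p ^ k) - 1)).det) atTop
      (𝓝 X.det) :=
    ((continuous_id.matrix_det).tendsto X).comp h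
  have hp0 : Tendsto (fun k : ℕ => (p : E) ^ k) atTop (𝓝 0) :=
    tendsto_pow_atTop_nhds_zero_of_norm_lt_one (norm_pE_lt p)
  have h2 : Tendsto (fun k : ℕ => (((p : ℚ_[p]) ^ k)⁻¹ • (a ^ (p ^ k) - 1)).trace) atTop
      (𝓝 (-(0 * X.det))) := by
    simp_rw [trace_seq p hdet]
    exact (hp0.mul hd).neg
  rw [zero_mul, neg_zero] at h2
  exact tendsto_nhds_unique ht h2

private lemma seq_small {a : M2 E} {r : ℝ} (hr : r ≤ (p : ℝ)⁻¹ ^ 2)
    (ha : ∀ i j, ‖(a - 1) i j‖ ≤ r) (k : ℕ) (i j : Fin 2) :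
    ‖(((p : ℚ_[p]) ^ k)⁻¹ • (a ^ (p ^ k) - 1)) i j‖ ≤ r := by
  have hr0 : 0 ≤ r := (norm_nonneg _).trans (ha 0 0)
  let _ := matNormedRing (E := E)
  let _ := matNormedAlgebra (E := E) p
  have := matUltra (E := E)
  have ha' : ‖a - 1‖ ≤ r := by
    rw [mat_norm_le_iff _ hr0]
    exact ha
  have h0 : logSeq p (0 : M2 E) k = 0 := by
    unfold logSeq
    rw [add_zero, one_pow, sub_self, smul_zero]
  have h1 := norm_logSeq_sub p (ha'.trans hr) (y := (0 : M2 E)) (by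
    rw [norm_zero]
    positivity) k
  rw [h0, sub_zero, sub_zero] at h1
  have h2 : ((p : ℚ_[p]) ^ k)⁻¹ • (a ^ (p ^ k) - 1) = logSeq p (a - 1) k := by
    rw [logSeq, add_sub_cancel]
  rw [h2]
  have h3 : ‖logSeq p (a - 1) k‖ ≤ r := h1.trans_le ha'
  exact (mat_norm_le_iff _ hr0).1 h3 i j

theorem log_small {a X : M2 E} {r : ℝ} (hr : r ≤ (p : ℝ)⁻¹ ^ 2)
    (ha : ∀ i j, ‖(a - 1) i j‖ ≤ r)
    (h : Tendsto (fun k : ℕ => ((p : ℚ_[p]) ^ k)⁻¹ • (a ^ (p ^ k) - 1)) atTop (𝓝 X)) :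
    ∀ i j, ‖X i j‖ ≤ r := by
  intro i j
  have h1 : Tendsto (fun k : ℕ => (((p : ℚ_[p]) ^ k)⁻¹ • (a ^ (p ^ k) - 1)) i j) atTop
      (𝓝 (X i j)) := (continuous_id.matrix_elem i j).tendsto X |>.comp h
  exact le_of_tendsto h1.norm (Eventually.of_forall fun k => seq_small p hr ha k i j)

end Pool.Agent.Helper37.Dc
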