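import Pool.Agent.Helper37.Dc.Exact
import Pool.Agent.Helper37.Dc.Core
import Pool.Agent.Helper37.Dc.Image
import Pool.Agent.Helper37.Dc.LogFacts
import Pool.Agent.Helper37.Kr.KernA

/-!
# Project DCH (MP_6cbef8_nt), module Full: the common kernel of the `T j` has open image in `V(G) ∩ SL_2`

`𝔤 = ASp ℚ_[p] p (RQ p V T) H` is the `ℚ_p`-Lie algebra in `A = M_2(E) × ∏ M_(n j)(ℚ_p)`. If it contains
an element which is nonscalar in the first component and zero in all others, then it contains `(X, 0)` for every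
`(X, Y)` in it with `X` of trace zero (`trace0_mem`). Small elements of `𝔤` are logarithms, so that a small element
of `V(G)` of determinant `1` is `V x` for some `x ∈ H` with all `T j x = 1`.
-/

set_option autoImplicit false
open Filter Topology

namespace Pool.Agent.Helper37.Dc

open Pool.Agent.Helper27.FM Pool.Agent.Helper37.Kr Matrix

variable (p : ℕ) [hp : Fact p.Prime]

variable {E : Type*} [NontriviallyNormedField E] [IsUltrametricDist E] [NormedAlgebra ℚ_[p] E]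
  [FiniteDimensional ℚ_[p] E]
  {G : Type*} [Group G] [TopologicalSpace G] [IsTopologicalGroup G] [CompactSpace G]
  {J : Type*} [Finite J] {n : J → ℕ}

private theorem prodUltra (X Y : Type*) [PseudoMetricSpace X] [PseudoMetricSpace Y]
    [IsUltrametricDist X] [IsUltrametricDist Y] : IsUltrametricDist (X × Y) :=
  ⟨fun a b c => by
    rw [Prod.dist_eq, Prod.dist_eq, Prod.dist_eq]
    exact max_le
      ((IsUltrametricDist.dist_triangle_max a.1 b.1 c.1).trans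
        (max_le_max (le_max_left _ _) (le_max_left _ _)))
      ((IsUltrametricDist.dist_triangle_max a.2 b.2 c.2).trans
        (max_le_max (le_max_right _ _) (le_max_right _ _)))⟩

omit [IsUltrametricDist E] [FiniteDimensional ℚ_[p] E] in
/-- components of the logarithm -/
private theorem alog_comp {V : G →* GL (Fin 2) E}
    {T : ∀ j, G →* GL (Fin (n j)) ℚ_[p]} {x : G} {w : M2 E × (∀ j : J, Matrix (Fin (n j)) (Fin (n j)) ℚ_[p])}
    (h : ALog ℚ_[p] p (RQ p V T) x w) :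
    Tendsto (fun m : ℕ => ((p : ℚ_[p]) ^ m)⁻¹ • ((V x : M2 E) ^ (p ^ m) - 1)) atTop (𝓝 w.1) ∧
    ∀ j, Tendsto (fun m : ℕ => ((p : ℚ_[p]) ^ m)⁻¹ •
      ((T j x : Matrix (Fin (n j)) (Fin (n j)) ℚ_[p]) ^ (p ^ m) - 1)) atTop (𝓝 (w.2 j)) := by
  unfold ALog at h
  refine ⟨h.fst_nhds, fun j => ?_⟩
  exact (tendsto_pi_nhds.1 h.snd_nhds) j

private theorem eq_one_of_log {m : ℕ} {a : Matrix (Fin m) (Fin m) ℚ_[p]}
    (ha : ∀ i j, ‖(a - 1) i j‖ ≤ (p : ℝ)⁻¹ ^ 2)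
    (h : Tendsto (fun k : ℕ => ((p : ℚ_[p]) ^ k)⁻¹ • (a ^ (p ^ k) - 1)) atTop (𝓝 0)) : a = 1 := by
  letI := matnNormedRing (E := ℚ_[p]) (m := m)
  letI := matnNormedAlgebra (E := ℚ_[p]) (m := m) p
  haveI := matnUltra (E := ℚ_[p]) (m := m)
  have hp0 : 0 < (p : ℝ)⁻¹ := by
    have := hp.out.pos
    positivity
  have ha' : ‖a - 1‖ ≤ (p : ℝ)⁻¹ ^ 2 := by
    refine (Matrix.norm_le_iff (by positivity)).2 ?_
    exact ha
  have hb' : ‖(1 : Matrix (Fin m) (Fin m) ℚ_[p]) - 1‖ ≤ (p : ℝ)⁻¹ ^ 2 := by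
    rw [sub_self]
    refine (Matrix.norm_le_iff (by positivity)).2 ?_
    intro i j
    rw [Matrix.zero_apply, norm_zero]
    positivity
  have e1 : (fun k : ℕ => ((p : ℚ_[p]) ^ k)⁻¹ • (a ^ (p ^ k) - 1)) = logSeq p (a - 1) := by
    funext k
    rw [logSeq, add_sub_cancel]
  have e2 : Tendsto (logSeq p ((1 : Matrix (Fin m) (Fin m) ℚ_[p]) - 1)) atTop (𝓝 0) := by
    have e3 : logSeq p ((1 : Matrix (Fin m) (Fin m) ℚ_[p]) - 1) = fun _ => 0 := by
      funext k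
      rw [logSeq, add_sub_cancel, one_pow, sub_self, smul_zero]
    rw [e3]
    exact tendsto_const_nhds
  rw [e1] at h
  exact sub_left_injective (log_inj p ha' hb' h e2)

/-- every element of `H` has a logarithm -/
private theorem exists_logQ {V : G →* GL (Fin 2) E} {T : ∀ j, G →* GL (Fin (n j)) ℚ_[p]} {x : G}
    (h1 : ∀ i j, ‖((V x : M2 E) - 1) i j‖ ≤ (p : ℝ)⁻¹ ^ 2)
    (h2 : ∀ k i j, ‖((T k x : Matrix (Fin (n k)) (Fin (n k)) ℚ_[p]) - 1) i j‖ ≤ (p : ℝ)⁻¹ ^ 2) :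
    ∃ z, ALog ℚ_[p] p (RQ p V T) x z := by
  haveI : CompleteSpace E := FiniteDimensional.complete ℚ_[p] E
  obtain ⟨X, hX⟩ := exists_log_mat p (V x : M2 E) h1
  have hY := fun k => exists_log_matn p (T k x : Matrix (Fin (n k)) (Fin (n k)) ℚ_[p]) (h2 k)
  choose Y hY using hY
  refine ⟨(X, Y), ?_⟩
  unfold ALog
  have hX' : Tendsto (fun m : ℕ => ((p : ℚ_[p]) ^ m)⁻¹ • ((V x : M2 E) ^ (p ^ m) - 1)) atTop
      (𝓝 X) := by
    refine hX.congr fun m => ?_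
    rw [smul_p_eq]
  exact hX'.prodMk_nhds (tendsto_pi_nhds.2 hY)

omit [IsUltrametricDist E] [FiniteDimensional ℚ_[p] E] [TopologicalSpace G] [IsTopologicalGroup G]
  [CompactSpace G] [Finite J] in
private theorem rq_conj {V : G →* GL (Fin 2) E} {T : ∀ j, G →* GL (Fin (n j)) ℚ_[p]} (g : G)
    (b : M2 E) : RQ p V T g * (b, 0) * RQ p V T g⁻¹ = (cj (V g) b, 0) := by
  refine Prod.ext ?_ ?_
  · change (V g : M2 E) * b * (V g⁻¹ : M2 E) = _
    rw [cj, map_inv]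
  · funext j
    change (T j g : Matrix (Fin (n j)) (Fin (n j)) ℚ_[p]) * 0 * (T j g⁻¹ : Matrix (Fin (n j)) (Fin (n j)) ℚ_[p]) = 0
    rw [mul_zero, zero_mul]

/-- the trace zero part of the first component of the Lie algebra is contained in it -/
private theorem trace0_mem {V : G →* GL (Fin 2) E} (hsim : AdSimple V)
    {T : ∀ j, G →* GL (Fin (n j)) ℚ_[p]} {H : Subgroup G} (hH : H.Normal)
    (hlog : ∀ x ∈ H, ∃ z, ALog ℚ_[p] p (RQ p V T) x z)
    (hI : ∃ z ∈ ASp ℚ_[p] p (RQ p V T) H, (∀ j, z.2 j = 0) ∧ ∀ c : E, z.1 ≠ c • (1 : M2 E))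
    {z : M2 E × (∀ j : J, Matrix (Fin (n j)) (Fin (n j)) ℚ_[p])}
    (hz : z ∈ ASp ℚ_[p] p (RQ p V T) H) (htr : z.1.trace = 0) :
    ((z.1, 0) : M2 E × (∀ j : J, Matrix (Fin (n j)) (Fin (n j)) ℚ_[p])) ∈
      ASp ℚ_[p] p (RQ p V T) H := by
  classical
  haveI : CharZero E := charZero_of_injective_algebraMap (algebraMap ℚ_[p] E).injective
  letI := Fintype.ofFinite J
  have hbr : ∀ a ∈ ASp ℚ_[p] p (RQ p V T) H, ∀ b ∈ ASp ℚ_[p] p (RQ p V T) H,
      a * b - b * a ∈ ASp ℚ_[p] p (RQ p V T) H := fun a ha b hb =>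
    ASp_bracket (E := ℚ_[p]) p hH hlog ha hb
  let I : Submodule ℚ_[p] (M2 E) := (ASp ℚ_[p] p (RQ p V T) H).comap
    (LinearMap.inl ℚ_[p] (M2 E) (∀ j : J, Matrix (Fin (n j)) (Fin (n j)) ℚ_[p]))
  have hmem : ∀ b, b ∈ I ↔ ((b, 0) : M2 E × (∀ j : J, Matrix (Fin (n j)) (Fin (n j)) ℚ_[p])) ∈
      ASp ℚ_[p] p (RQ p V T) H := fun b => Iff.rfl
  rw [← hmem]
  refine traceless_mem hsim I ?_ ?_ ?_ htr ?_
  · intro g b hb
    rw [hmem] at hb ⊢
    rw [← rq_conj]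
    exact ASp_adj hH g hb
  · intro a ha b hb
    rw [hmem] at ha hb ⊢
    have h := hbr _ ha _ hb
    have e : ((a, 0) : M2 E × (∀ j : J, Matrix (Fin (n j)) (Fin (n j)) ℚ_[p])) * (b, 0) -
        (b, 0) * (a, 0) = (a * b - b * a, 0) := by
      refine Prod.ext rfl ?_
      funext j
      change (0 : Matrix (Fin (n j)) (Fin (n j)) ℚ_[p]) * 0 - 0 * 0 = 0
      simp
    rw [e] at h
    exact h
  · obtain ⟨y, hy, hy0, hyn⟩ := hI
    refine ⟨y.1, ?_, hyn⟩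
    rw [hmem]
    have e : ((y.1, 0) : M2 E × (∀ j : J, Matrix (Fin (n j)) (Fin (n j)) ℚ_[p])) = y :=
      Prod.ext rfl (funext fun j => (hy0 j).symm)
    rw [e]
    exact hy
  · intro b hb
    rw [hmem] at hb ⊢
    have h := hbr _ hz _ hb
    have e : z * (b, 0) - (b, 0) * z = (z.1 * b - b * z.1, 0) := by
      refine Prod.ext rfl ?_
      funext j
      change z.2 j * 0 - 0 * z.2 j = 0
      simp
    rw [e] at h
    exact h

/-- small elements of the Lie algebra are logarithms -/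
private theorem small_log {V : G →* GL (Fin 2) E} (hV : Continuous V)
    {T : ∀ j, G →* GL (Fin (n j)) ℚ_[p]} (hT : ∀ j, Continuous (T j)) {H : Subgroup G}
    (hHo : IsOpen (H : Set G))
    (hs : ∀ x ∈ H, (∀ i j, ‖((V x : M2 E) - 1) i j‖ ≤ (p : ℝ)⁻¹ ^ 2) ∧
      ∀ k i j, ‖((T k x : Matrix (Fin (n k)) (Fin (n k)) ℚ_[p]) - 1) i j‖ ≤ (p : ℝ)⁻¹ ^ 2) :
    ∃ δ : ℝ, 0 < δ ∧ ∀ X : M2 E,
      ((X, 0) : M2 E × (∀ j : J, Matrix (Fin (n j)) (Fin (n j)) ℚ_[p])) ∈ ASp ℚ_[p] p (RQ p V T) H →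
      (∀ i j, ‖X i j‖ ≤ δ) → ∃ x ∈ H, ALog ℚ_[p] p (RQ p V T) x (X, 0) := by
  classical
  have hp0 : 0 < (p : ℝ)⁻¹ := by
    have := hp.out.pos
    positivity
  letI := Fintype.ofFinite J
  letI i1 : NormedRing (M2 E) := matNormedRing (E := E)
  letI i2 : ∀ j, NormedRing (Matrix (Fin (n j)) (Fin (n j)) ℚ_[p]) :=
    fun j => matnNormedRing (E := ℚ_[p]) (m := n j)
  letI i3 : NormedAlgebra ℚ_[p] (M2 E) := matNormedAlgebra (E := E) p
  letI i4 : ∀ j, NormedAlgebra ℚ_[p] (Matrix (Fin (n j)) (Fin (n j)) ℚ_[p]) :=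
    fun j => matnNormedAlgebra (E := ℚ_[p]) (m := n j) p
  haveI i5 : IsUltrametricDist (M2 E) := matUltra (E := E)
  haveI i6 : ∀ j, IsUltrametricDist (Matrix (Fin (n j)) (Fin (n j)) ℚ_[p]) :=
    fun j => matnUltra (E := ℚ_[p]) (m := n j)
  haveI i7 : FiniteDimensional ℚ_[p] (M2 E) := inferInstance
  haveI i8 : IsUltrametricDist
      (M2 E × ((j : J) → Matrix (Fin (n j)) (Fin (n j)) ℚ_[p])) := prodUltra _ _
  have hc : Continuous (RQ p V T) := by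
    refine Continuous.prodMk (Units.continuous_val.comp hV) ?_
    exact continuous_pi fun j => Units.continuous_val.comp (hT j)
  have hone : ‖(1 : M2 E × (∀ j : J, Matrix (Fin (n j)) (Fin (n j)) ℚ_[p]))‖ ≤ 1 := by
    rw [Prod.norm_def]
    refine max_le ?_ ?_
    · refine (Matrix.norm_le_iff zero_le_one).2 fun i j => ?_
      by_cases h : i = j
      · subst h
        simp
      · simp [Matrix.one_apply_ne h]
    · refine (pi_norm_le_iff_of_nonneg zero_le_one).2 fun j => ?_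
      refine (Matrix.norm_le_iff zero_le_one).2 fun i k => ?_
      by_cases h : i = k
      · subst h
        simp
      · simp [Matrix.one_apply_ne h]
  have hsm : ∀ x ∈ H, ‖RQ p V T x - 1‖ ≤ (p : ℝ)⁻¹ ^ 2 := by
    intro x hx
    rw [Prod.norm_def]
    refine max_le ?_ ?_
    · refine (Matrix.norm_le_iff (by positivity)).2 fun i j => ?_
      exact (hs x hx).1 i j
    · refine (pi_norm_le_iff_of_nonneg (by positivity)).2 fun j => ?_
      refine (Matrix.norm_le_iff (by positivity)).2 fun i k => ?_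
      exact (hs x hx).2 j i k
  obtain ⟨δ, hδ, h⟩ := exists_log_small p (R := RQ p V T) hc hHo hone hsm
  refine ⟨δ, hδ, fun X hX hle => h (X, 0) hX ?_⟩
  rw [Prod.norm_def]
  refine max_le ?_ ?_
  · exact (Matrix.norm_le_iff hδ.le).2 hle
  · rw [norm_zero]
    exact hδ.le

omit [IsUltrametricDist E] [FiniteDimensional ℚ_[p] E] [NormedAlgebra ℚ_[p] E] hp in
private theorem nhds_entries {r : ℝ} (hr : 0 < r) :
    {a : M2 E | ∀ i j, ‖(a - 1) i j‖ ≤ r} ∈ 𝓝 (1 : M2 E) := by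
  have h : ∀ i j : Fin 2, ∀ᶠ a in 𝓝 (1 : M2 E), ‖(a - 1) i j‖ ≤ r := by
    intro i j
    have hc : Continuous (fun a : M2 E => ‖(a - 1) i j‖) := by
      have h1 : Continuous (fun a : M2 E => (a - 1) i j) :=
        (continuous_id.sub continuous_const).matrix_elem i j
      exact h1.norm
    have h0 : ‖((1 : M2 E) - 1) i j‖ < r := by
      rw [sub_self, Matrix.zero_apply, norm_zero]
      exact hr
    exact (hc.tendsto 1).eventually_le_const h0
  have h2 : ∀ᶠ a in 𝓝 (1 : M2 E), ∀ i j, ‖(a - 1) i j‖ ≤ r :=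
    eventually_all.2 fun i => eventually_all.2 fun j => h i j
  exact h2

theorem full_of_nonscalar {V : G →* GL (Fin 2) E} (hV : Continuous V) (hsim : AdSimple V)
    {T : ∀ j, G →* GL (Fin (n j)) ℚ_[p]} (hT : ∀ j, Continuous (T j)) {H : Subgroup G}
    (hH : H.Normal) (hHo : IsOpen (H : Set G))
    (hs : ∀ x ∈ H, (∀ i j, ‖((V x : M2 E) - 1) i j‖ ≤ (p : ℝ)⁻¹ ^ 2) ∧
      ∀ k i j, ‖((T k x : Matrix (Fin (n k)) (Fin (n k)) ℚ_[p]) - 1) i j‖ ≤ (p : ℝ)⁻¹ ^ 2)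
    (hI : ∃ z ∈ ASp ℚ_[p] p (RQ p V T) H, (∀ j, z.2 j = 0) ∧ ∀ c : E, z.1 ≠ c • (1 : M2 E)) :
    ∃ W ∈ 𝓝 (1 : M2 E), ∀ g, (V g : M2 E) ∈ W → (V g : M2 E).det = 1 →
      ∃ g' ∈ H, V g' = V g ∧ ∀ j, T j g' = 1 := by
  classical
  have hp0 : 0 < (p : ℝ)⁻¹ := by
    have := hp.out.pos
    positivity
  have hlog : ∀ x ∈ H, ∃ z, ALog ℚ_[p] p (RQ p V T) x z := fun x hx =>
    exists_logQ p (hs x hx).1 (hs x hx).2
  obtain ⟨δ, hδ, hδ2⟩ := small_log p hV hT hHo hs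
  have hcV : Continuous ((Units.coeHom (M2 E)).comp V) := Units.continuous_val.comp hV
  obtain ⟨W, hW, hW2⟩ := exists_nhds_image ((Units.coeHom (M2 E)).comp V) hcV hHo
  have hr : 0 < min δ ((p : ℝ)⁻¹ ^ 2) := lt_min hδ (by positivity)
  refine ⟨W ∩ {a : M2 E | ∀ i j, ‖(a - 1) i j‖ ≤ min δ ((p : ℝ)⁻¹ ^ 2)},
    inter_mem hW (nhds_entries hr), fun g hg hdet => ?_⟩
  obtain ⟨hg1, hg2⟩ := hg
  obtain ⟨h, hh, hhg⟩ := hW2 g hg1
  have hVh : (V h : M2 E) = (V g : M2 E) := hhg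
  obtain ⟨z, hz⟩ := hlog h hh
  have hzS : z ∈ ASp ℚ_[p] p (RQ p V T) H := Submodule.subset_span ⟨h, hh, hz⟩
  obtain ⟨hz1, -⟩ := alog_comp p hz
  have htr : z.1.trace = 0 := trace_log p (by rw [hVh]; exact hdet) hz1
  have hsmall : ∀ i j, ‖z.1 i j‖ ≤ min δ ((p : ℝ)⁻¹ ^ 2) := by
    refine log_small p (min_le_right _ _) ?_ hz1
    rw [hVh]
    exact hg2
  have hX := trace0_mem p hsim hH hlog hI hzS htr
  obtain ⟨x, hx, hxl⟩ := hδ2 z.1 hX fun i j => (hsmall i j).trans (min_le_left _ _)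
  obtain ⟨hx1, hx2⟩ := alog_comp p hxl
  refine ⟨x, hx, ?_, fun j => ?_⟩
  · have e : ∀ m : ℕ, ∀ a : M2 E, ((p : ℚ_[p]) ^ m)⁻¹ • a = ((p : E) ^ m)⁻¹ • a :=
      fun m a => (smul_p_eq p m a).symm
    simp only [e] at hx1 hz1
    have h3 : (V x : M2 E) = (V h : M2 E) :=
      log_inj_mat p (hs x hx).1 (hs h hh).1 hx1 hz1
    exact Units.ext (h3.trans hVh)
  · exact Units.ext (eq_one_of_log p (fun i k => (hs x hx).2 j i k) (hx2 j))

end Pool.Agent.Helper37.Dc
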