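import Pool.Agent.Helper37.Af.Cartan
import Pool.Agent.Helper27.FM.Mat

/-!
# Project DCH (MP_6cbef8_nt), module Nil: Cartan's criterion over a smaller field

`K ⊂ E` is a finite extension of fields of characteristic zero, `N` a `K`-subspace of `M_2(E)` closed under brackets on which the `K`-trace form
`(a, b) ↦ Tr_(M_2(E)/K)(left multiplication by a b)` is zero. Then brackets of elements of `N` have zero trace products: the left regular representation
`φ : M_2(E) → M_d(K)` turns this into `nilpotent_of_trace`, nilpotent matrices of size two have square of trace zero, and one polarises.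
-/

set_option autoImplicit false

namespace Pool.Agent.Helper37.Dc

open Pool.Agent.Helper27.FM Pool.Agent.Helper37.Af Matrix

private theorem nil_tr {E : Type*} [Field E] {y : M2 E} (h : IsNilpotent y) :
    (y * y).trace = 0 := by
  have h1 : IsNilpotent (y * y) := by
    have := h.pow_succ 1
    rwa [pow_succ, pow_one] at this
  have h2 := Matrix.isNilpotent_trace_of_isNilpotent h1
  exact h2.eq_zero

theorem trace_bracket_zero {K E : Type*} [Field K] [CharZero K] [Field E] [Algebra K E]
    [FiniteDimensional K E] (N : Submodule K (M2 E)) (hbr : ∀ a ∈ N, ∀ b ∈ N, a * b - b * a ∈ N)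
    (htr : ∀ a ∈ N, ∀ b ∈ N, LinearMap.trace K (M2 E) (LinearMap.mulLeft K (a * b)) = 0) :
    ∀ a ∈ N, ∀ b ∈ N, ∀ c ∈ N, ∀ d ∈ N, ((a * b - b * a) * (c * d - d * c)).trace = 0 := by
  classical
  let b := Module.finBasis K (M2 E)
  let φ : M2 E →ₐ[K] Matrix (Fin (Module.finrank K (M2 E))) (Fin (Module.finrank K (M2 E))) K :=
    Algebra.leftMulMatrix b
  have hinj : Function.Injective φ := Algebra.leftMulMatrix_injective b
  have htrφ : ∀ x : M2 E, (φ x).trace = LinearMap.trace K (M2 E) (LinearMap.mulLeft K x) := by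
    intro x
    rw [LinearMap.trace_eq_matrix_trace K b]
    rfl
  have hnil := nilpotent_of_trace (N.map φ.toLinearMap) (by
    rintro _ ⟨x, hx, rfl⟩ _ ⟨y, hy, rfl⟩
    refine ⟨x * y - y * x, hbr x hx y hy, ?_⟩
    simp) (by
    rintro _ ⟨x, hx, rfl⟩ _ ⟨y, hy, rfl⟩
    have h1 : φ.toLinearMap x * φ.toLinearMap y = φ (x * y) := by simp
    rw [h1, htrφ]
    exact htr x hx y hy)
  have key : ∀ y ∈ Submodule.span K {c : M2 E | ∃ a ∈ N, ∃ b ∈ N, c = a * b - b * a},
      IsNilpotent y := by
    intro y hy
    have h1 : φ y ∈ Submodule.span K {c | ∃ a ∈ N.map φ.toLinearMap, ∃ b ∈ N.map φ.toLinearMap,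
        c = a * b - b * a} := by
      induction hy using Submodule.span_induction with
      | mem x hx =>
        obtain ⟨a, ha, b, hb, rfl⟩ := hx
        refine Submodule.subset_span ⟨φ a, ⟨a, ha, rfl⟩, φ b, ⟨b, hb, rfl⟩, ?_⟩
        simp
      | zero => rw [map_zero]; exact Submodule.zero_mem _
      | add x z _ _ hx hz => rw [map_add]; exact Submodule.add_mem _ hx hz
      | smul r x _ hx => rw [map_smul]; exact Submodule.smul_mem _ _ hx
    obtain ⟨k, hk⟩ := hnil _ h1
    refine ⟨k, hinj ?_⟩
    rw [map_pow, hk, map_zero]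
  intro a ha b hb c hc d hd
  have hy : a * b - b * a ∈ Submodule.span K {c : M2 E | ∃ a ∈ N, ∃ b ∈ N, c = a * b - b * a} :=
    Submodule.subset_span ⟨a, ha, b, hb, rfl⟩
  have hz : c * d - d * c ∈ Submodule.span K {c : M2 E | ∃ a ∈ N, ∃ b ∈ N, c = a * b - b * a} :=
    Submodule.subset_span ⟨c, hc, d, hd, rfl⟩
  generalize a * b - b * a = y at hy ⊢
  generalize c * d - d * c = z at hz ⊢
  have h1 := nil_tr (key _ hy)
  have h2 := nil_tr (key _ hz)
  have h3 := nil_tr (key _ (Submodule.add_mem _ hy hz))
  have h4 : (y + z) * (y + z) = y * y + y * z + (z * y + z * z) := by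
    rw [add_mul, mul_add, mul_add]
  rw [h4, Matrix.trace_add, Matrix.trace_add, Matrix.trace_add, h1, h2, Matrix.trace_mul_comm z y]
    at h3
  have h5 : CharZero E := charZero_of_injective_algebraMap (algebraMap K E).injective
  have h6 : (2 : E) * (y * z).trace = 0 := by linear_combination h3
  rcases mul_eq_zero.1 h6 with h | h
  · exact absurd h two_ne_zero
  · exact h

end Pool.Agent.Helper37.Dc
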