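import Pool.Agent.Helper27.FM.Goursat
import Pool.Agent.Helper27.FM.Defs
import Mathlib.Topology.Algebra.Nonarchimedean.Basic

/-!
# Project DCH (MP_6cbef8_nt), module NonInd: there are nonscalar elements of determinant one close to 1

PLAN. `c (a, b) = V (a * b * a⁻¹ * b⁻¹)` is continuous on `G × G` and equal to `1` at `(1, 1)`, so there is an open neighbourhood `N` of `1` in `G` with `c (a, b) ∈ W` for `a, b ∈ N`, and, `G` being profinite, an open subgroup
`U ⊂ N` (`ProfiniteGrp.exist_openNormalSubgroup_sub_open_nhds_of_one`, see the proof of `exists_small3` in Helper27/FM/Main3.lean). Shrink `W` first so that `-1 ∉ W` (`{-1}ᶜ` is a neighbourhood of `1`, as `-1 ≠ 1` in characteristic zero).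
By contradiction: all commutators `g = a b a⁻¹ b⁻¹`, `a, b ∈ U`, have `(V g).det = 1` and `V g ∈ W`, so `V g = c • 1` with `c ^ 2 = 1`, so `c = 1` (`c = -1` is excluded), `V g = 1`,
i.e. `V a * V b = V b * V a`. The span of `V '' U` is everything (`StronglyIrreducible`), so all matrices commute (span induction in both variables): contradiction for `single 0 1 1`, `single 1 0 1`.
-/

set_option autoImplicit false
open Topology

namespace Pool.Agent.Helper37.Dc

open Pool.Agent.Helper27.FM Matrix

theorem exists_nonscalar {E : Type*} [NontriviallyNormedField E] [CharZero E] {G : Type*} [Group G]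
    [TopologicalSpace G] [IsTopologicalGroup G] [CompactSpace G] [TotallyDisconnectedSpace G]
    {V : G →* GL (Fin 2) E} (hV : Continuous V) (hirr : StronglyIrreducible V) {W : Set (M2 E)}
    (hW : W ∈ 𝓝 (1 : M2 E)) :
    ∃ g : G, (V g : M2 E) ∈ W ∧ (V g : M2 E).det = 1 ∧ ∀ c : E, (V g : M2 E) ≠ c • (1 : M2 E) := by
  by_contra hcon
  have hcon' : ∀ g : G, (V g : M2 E) ∈ W → (V g : M2 E).det = 1 →
      ∃ c : E, (V g : M2 E) = c • (1 : M2 E) := by
    intro g h1 h2
    by_contra h3
    push Not at h3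
    exact hcon ⟨g, h1, h2, h3⟩
  have hne : (1 : M2 E) ≠ -1 := by
    intro h
    have h1 := congrFun (congrFun h 0) 0
    rw [Matrix.neg_apply, Matrix.one_apply_eq] at h1
    have h2 : (2 : E) = 0 := by linear_combination h1
    exact two_ne_zero h2
  have hW' : W ∩ {(-1 : M2 E)}ᶜ ∈ 𝓝 (1 : M2 E) :=
    Filter.inter_mem hW (isOpen_compl_singleton.mem_nhds hne)
  have hc : Continuous fun q : G × G => (V (q.1 * q.2 * q.1⁻¹ * q.2⁻¹) : M2 E) := by
    refine Units.continuous_val.comp (hV.comp ?_)
    exact ((continuous_fst.mul continuous_snd).mul continuous_fst.inv).mul continuous_snd.inv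
  have hc1 : (fun q : G × G => (V (q.1 * q.2 * q.1⁻¹ * q.2⁻¹) : M2 E)) (1, 1) = 1 := by
    simp
  have hpre : (fun q : G × G => (V (q.1 * q.2 * q.1⁻¹ * q.2⁻¹) : M2 E)) ⁻¹'
      (W ∩ {(-1 : M2 E)}ᶜ) ∈ 𝓝 ((1, 1) : G × G) := by
    apply hc.continuousAt
    rw [hc1]
    exact hW'
  rw [mem_nhds_prod_iff] at hpre
  obtain ⟨N1, hN1, N2, hN2, hN⟩ := hpre
  have hNo : IsOpen (interior (N1 ∩ N2)) := isOpen_interior
  have h1N : (1 : G) ∈ interior (N1 ∩ N2) :=
    mem_interior_iff_mem_nhds.2 (Filter.inter_mem hN1 hN2)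
  obtain ⟨H, hH⟩ := ProfiniteGrp.exist_openNormalSubgroup_sub_open_nhds_of_one hNo h1N
  have hcomm : ∀ a ∈ H.toSubgroup, ∀ b ∈ H.toSubgroup,
      (V a : M2 E) * (V b : M2 E) = (V b : M2 E) * (V a : M2 E) := by
    intro a ha b hb
    have ha' : a ∈ N1 := (interior_subset (hH ha)).1
    have hb' : b ∈ N2 := (interior_subset (hH hb)).2
    have h1 : (V (a * b * a⁻¹ * b⁻¹) : M2 E) ∈ W ∩ {(-1 : M2 E)}ᶜ :=
      hN (show ((a, b) : G × G) ∈ N1 ×ˢ N2 from ⟨ha', hb'⟩)
    have hd : (V (a * b * a⁻¹ * b⁻¹) : M2 E).det = 1 := by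
      have h2 : Matrix.GeneralLinearGroup.det (V (a * b * a⁻¹ * b⁻¹)) = 1 := by
        rw [map_mul, map_mul, map_mul, map_mul, map_mul, map_mul, map_inv, map_inv, map_inv,
          map_inv]
        rw [mul_comm (Matrix.GeneralLinearGroup.det (V a))]
        group
      have h3 := congrArg (fun u : Eˣ => (u : E)) h2
      exact h3
    obtain ⟨c, hc2⟩ := hcon' _ h1.1 hd
    have hc3 : c ^ 2 = 1 := by
      rw [hc2, Matrix.det_smul, Matrix.det_one, Fintype.card_fin, mul_one] at hd
      exact hd
    have hc4 : c = 1 := by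
      rcases (sq_eq_one_iff (a := c)).1 hc3 with h | h
      · exact h
      · exfalso
        apply h1.2
        show (V (a * b * a⁻¹ * b⁻¹) : M2 E) = -1
        rw [hc2, h, neg_smul, one_smul]
    have h5 : V (a * b * a⁻¹ * b⁻¹) = 1 := by
      apply Units.ext
      rw [hc2, hc4, one_smul]
      rfl
    have h6 : V a * V b = V b * V a := by
      rw [map_mul, map_mul, map_mul, map_inv, map_inv] at h5
      calc V a * V b = (V a * V b * (V a)⁻¹ * (V b)⁻¹) * (V b * V a) := by group
        _ = V b * V a := by rw [h5, one_mul]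
    have h7 := congrArg (fun u : GL (Fin 2) E => (u : M2 E)) h6
    exact h7
  have hspan := hirr H.toSubgroup H.isOpen'
  have hstep1 : ∀ b ∈ H.toSubgroup, ∀ X : M2 E, X * (V b : M2 E) = (V b : M2 E) * X := by
    intro b hb X
    have hX : X ∈ Submodule.span E
        ((fun g => (V g : Matrix (Fin 2) (Fin 2) E)) '' (H.toSubgroup : Set G)) := by
      rw [hspan]; exact Submodule.mem_top
    induction hX using Submodule.span_induction with
    | mem x hx =>
      obtain ⟨a, ha, rfl⟩ := hx
      exact hcomm a ha b hb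
    | zero => rw [zero_mul, mul_zero]
    | add x y _ _ hx hy => rw [add_mul, mul_add, hx, hy]
    | smul c x _ hx => rw [smul_mul_assoc, mul_smul_comm, hx]
  have hstep2 : ∀ X Y : M2 E, X * Y = Y * X := by
    intro X Y
    have hY : Y ∈ Submodule.span E
        ((fun g => (V g : Matrix (Fin 2) (Fin 2) E)) '' (H.toSubgroup : Set G)) := by
      rw [hspan]; exact Submodule.mem_top
    induction hY using Submodule.span_induction with
    | mem x hx =>
      obtain ⟨b, hb, rfl⟩ := hx
      exact hstep1 b hb X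
    | zero => rw [zero_mul, mul_zero]
    | add x y _ _ hx hy => rw [add_mul, mul_add, hx, hy]
    | smul c x _ hx => rw [smul_mul_assoc, mul_smul_comm, hx]
  have h8 := hstep2 !![0, 1; 0, 0] !![0, 0; 1, 0]
  have h9 := congrFun (congrFun h8 0) 0
  simp [Matrix.mul_apply, Fin.sum_univ_two] at h9

end Pool.Agent.Helper37.Dc
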